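import Mathlib

set_option autoImplicit false

namespace Pool.Agent.H751Z.Fas

/-- in a minimal feedback arc set, the head of each arc of the set has an in-arc outside the set -/
theorem exists_in {V : Type} (G : Digraph V) (hl : ∀ v, ¬ G.Adj v v) (F : Set (V × V))
    (hF : Minimal (fun S : Set (V × V) =>
      (∀ e ∈ S, G.Adj e.1 e.2) ∧
      ∀ v : V, ¬ Relation.TransGen (fun a b => G.Adj a b ∧ (a, b) ∉ S) v v) F)
    (x y : V) (hxy : (x, y) ∈ F) : ∃ u, G.Adj y u ∧ (y, u) ∉ F ∧ ∃ w, G.Adj w x ∧ (w, x) ∉ F := by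
  have h1 : ¬ ((∀ e ∈ F \ {(x, y)}, G.Adj e.1 e.2) ∧
      ∀ v : V, ¬ Relation.TransGen (fun a b => G.Adj a b ∧ (a, b) ∉ F \ {(x, y)}) v v) := by
    intro h
    have := hF.2 h Set.sdiff_subset
    exact (this hxy).2 rfl
  have h2 : ∃ v : V, Relation.TransGen (fun a b => G.Adj a b ∧ (a, b) ∉ F \ {(x, y)}) v v := by
    by_contra hc
    push Not at hc
    exact h1 ⟨fun e he => hF.1.1 e he.1, hc⟩
  obtain ⟨v, hv⟩ := h2
  have key : ∀ a b : V,
      Relation.TransGen (fun a b => G.Adj a b ∧ (a, b) ∉ F \ {(x, y)}) a b →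
      Relation.TransGen (fun a b => G.Adj a b ∧ (a, b) ∉ F) a b ∨
      (Relation.ReflTransGen (fun a b => G.Adj a b ∧ (a, b) ∉ F) a x ∧
        Relation.ReflTransGen (fun a b => G.Adj a b ∧ (a, b) ∉ F) y b) := by
    intro a b hab
    induction hab with
    | @single c hc =>
      by_cases hm : (a, c) ∈ F
      · have : (a, c) = (x, y) := by
          by_contra hne
          exact hc.2 ⟨hm, hne⟩
        obtain ⟨rfl, rfl⟩ := Prod.mk.inj this
        exact Or.inr ⟨.refl, .refl⟩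
      · exact Or.inl (.single ⟨hc.1, hm⟩)
    | @tail c d _ hcd ih =>
      by_cases hm : (c, d) ∈ F
      · have : (c, d) = (x, y) := by
          by_contra hne
          exact hcd.2 ⟨hm, hne⟩
        obtain ⟨rfl, rfl⟩ := Prod.mk.inj this
        rcases ih with ih | ih
        · exact Or.inr ⟨ih.to_reflTransGen, .refl⟩
        · exact Or.inr ⟨ih.1, .refl⟩
      · rcases ih with ih | ih
        · exact Or.inl (ih.tail ⟨hcd.1, hm⟩)
        · exact Or.inr ⟨ih.1, ih.2.tail ⟨hcd.1, hm⟩⟩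
  rcases key v v hv with h | h
  · exact absurd h (hF.1.2 v)
  · have h3 := h.2.trans h.1
    have hne : y ≠ x := by
      rintro rfl
      exact hl _ (hF.1.1 _ hxy)
    rcases h3.cases_head with h4 | ⟨u, hu, -⟩
    · exact absurd h4 hne
    rcases h3.cases_tail with h5 | ⟨w, -, hw⟩
    · exact absurd h5.symm hne
    exact ⟨u, hu.1, hu.2, w, hw.1, hw.2⟩

/-- the example: `N` big vertices on a cyclic order, each with `k` private out-neighbours, which
send arcs to the next `k` big vertices -/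
def G (N k : ℕ) : Digraph (ZMod N × Option (Fin k)) where
  Adj a b := (a.2 = none ∧ b.2 ≠ none ∧ a.1 = b.1) ∨
    (a.2 ≠ none ∧ b.2 = none ∧ ∃ j : Fin k, b.1 = a.1 + ((j.val + 1 : ℕ) : ZMod N))

theorem loopless (N k : ℕ) (v : ZMod N × Option (Fin k)) : ¬ (G N k).Adj v v := by
  rintro (⟨h1, h2, -⟩ | ⟨h1, h2, -⟩) <;> contradiction

theorem outdeg (N k : ℕ) [NeZero N] (hk : k < N) (v : ZMod N × Option (Fin k)) :
    k ≤ Nat.card {w // (G N k).Adj v w} := by
  obtain ⟨a, o⟩ := v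
  rcases o with _ | i
  · let f : Fin k → {w // (G N k).Adj (a, none) w} :=
      fun j => ⟨(a, some j), Or.inl ⟨rfl, by simp, rfl⟩⟩
    have hf : Function.Injective f := by
      intro i j h
      have h1 := congrArg (fun z => z.1.2) h
      simpa [f] using h1
    simpa using Nat.card_le_card_of_injective f hf
  · let f : Fin k → {w // (G N k).Adj (a, some i) w} :=
      fun j => ⟨(a + ((j.val + 1 : ℕ) : ZMod N), none), Or.inr ⟨by simp, rfl, j, rfl⟩⟩
    have hf : Function.Injective f := by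
      intro i j h
      have h1 : ((i.val + 1 : ℕ) : ZMod N) = ((j.val + 1 : ℕ) : ZMod N) := by
        have h0 := congrArg (fun z => z.1.1) h
        simpa [f] using h0
      have h2 := (ZMod.natCast_eq_natCast_iff' _ _ _).1 h1
      rw [Nat.mod_eq_of_lt (by omega), Nat.mod_eq_of_lt (by omega)] at h2
      exact Fin.ext (by omega)
    simpa using Nat.card_le_card_of_injective f hf

theorem walk (N k : ℕ) (p : ℕ → ZMod N × Option (Fin k)) (n : ℕ)
    (hp : ∀ i < n, (G N k).Adj (p i) (p (i + 1))) :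
    ∃ s : ℕ, s ≤ n * k ∧ (p n).1 = (p 0).1 + (s : ZMod N) ∧ (2 ≤ n → 0 < s) ∧
      (1 ≤ n → (p n).2 = none → 0 < s) := by
  induction n with
  | zero => exact ⟨0, by simp, by simp, by omega, by omega⟩
  | succ n ih =>
    obtain ⟨s, h1, h2, h3, h4⟩ := ih (fun i hi => hp i (by omega))
    rcases hp n (by omega) with ⟨a1, a2, a3⟩ | ⟨a1, a2, j, a3⟩
    · refine ⟨s, by nlinarith, by rw [← a3, h2], fun h => h4 (by omega) a1, fun _ h => absurd h a2⟩
    · refine ⟨s + (j.val + 1), ?_, ?_, fun _ => by omega, fun _ _ => by omega⟩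
      · have := j.isLt
        nlinarith
      · rw [a3, h2]; push_cast; ring

theorem girth (k g : ℕ) (n : ℕ) (hn : 1 ≤ n) (hg : n ≤ g)
    (p : ℕ → ZMod ((g + 1) * k + 1) × Option (Fin k))
    (hp : ∀ i < n, (G _ k).Adj (p i) (p (i + 1))) : p n ≠ p 0 := by
  intro h
  rcases Nat.lt_or_ge n 2 with h2 | h2
  · obtain rfl : n = 1 := by omega
    have := hp 0 (by omega)
    rw [zero_add, h] at this
    exact loopless _ _ _ this
  · obtain ⟨s, h1, h3, h4, -⟩ := walk _ k p n hp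
    rw [h] at h3
    have h5 : (s : ZMod ((g + 1) * k + 1)) = 0 := by simpa using h3
    have h6 := (ZMod.natCast_eq_zero_iff _ _).1 h5
    have h7 := Nat.le_of_dvd (h4 h2) h6
    have : n * k ≤ g * k := Nat.mul_le_mul_right _ hg
    nlinarith

theorem in_unique (N k : ℕ) (x a b : ZMod N × Option (Fin k)) (hx : x.2 ≠ none)
    (ha : (G N k).Adj a x) (hb : (G N k).Adj b x) : a = b := by
  rcases ha with ⟨a1, -, a3⟩ | ⟨-, a2, -⟩
  · rcases hb with ⟨b1, -, b3⟩ | ⟨-, b2, -⟩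
    · exact Prod.ext (a3.trans b3.symm) (a1.trans b1.symm)
    · exact absurd b2 hx
  · exact absurd a2 hx

theorem no_path (N k : ℕ) (F : Set ((ZMod N × Option (Fin k)) × (ZMod N × Option (Fin k))))
    (hF : Minimal (fun S : Set ((ZMod N × Option (Fin k)) × (ZMod N × Option (Fin k))) =>
      (∀ e ∈ S, (G N k).Adj e.1 e.2) ∧
      ∀ v, ¬ Relation.TransGen (fun a b => (G N k).Adj a b ∧ (a, b) ∉ S) v v) F)
    (a b c d : ZMod N × Option (Fin k)) (hab : (a, b) ∈ F) (hbc : (b, c) ∈ F)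
    (hcd : (c, d) ∈ F) : False := by
  obtain ⟨-, -, -, w, hw, hw2⟩ := exists_in _ (loopless N k) F hF b c hbc
  obtain ⟨-, -, -, u, hu, hu2⟩ := exists_in _ (loopless N k) F hF c d hcd
  have e1 := hF.1.1 _ hab
  have e2 := hF.1.1 _ hbc
  have : b.2 ≠ none ∨ c.2 ≠ none := by
    rcases e2 with ⟨-, h, -⟩ | ⟨h, -, -⟩
    · exact Or.inr h
    · exact Or.inl h
  rcases this with h | h
  · exact hw2 (in_unique N k b _ _ h e1 hw ▸ hab)
  · exact hu2 (in_unique N k c _ _ h e2 hu ▸ hbc)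

theorem main (k g : ℕ) :
    ∃ (V : Type) (_ : Finite V) (_ : Nonempty V) (D : Digraph V),
      (∀ v, ¬ D.Adj v v) ∧
      (∀ v : V, k ≤ Nat.card {w : V // D.Adj v w}) ∧
      (∀ n : ℕ, 1 ≤ n → n ≤ g → ∀ p : ℕ → V, (∀ i < n, D.Adj (p i) (p (i + 1))) → p n ≠ p 0) ∧
      ∀ F : Set (V × V),
        Minimal (fun S : Set (V × V) =>
          (∀ e ∈ S, D.Adj e.1 e.2) ∧
          ∀ v : V, ¬ Relation.TransGen (fun a b => D.Adj a b ∧ (a, b) ∉ S) v v) F →
        ¬ ∃ a b c d : V, (a, b) ∈ F ∧ (b, c) ∈ F ∧ (c, d) ∈ F := by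
  refine ⟨ZMod ((g + 1) * k + 1) × Option (Fin k), inferInstance, inferInstance, G _ k,
    loopless _ _, outdeg _ k (by nlinarith), fun n h1 h2 p hp => girth k g n h1 h2 p hp, ?_⟩
  rintro F hF ⟨a, b, c, d, h1, h2, h3⟩
  exact no_path _ _ F hF a b c d h1 h2 h3

end Pool.Agent.H751Z.Fas
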